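import Mathlib

set_option autoImplicit false

namespace Pool.Agent.Results.MP_96acc4_lc.Holds

open Filter Cardinal

def LeRK {X Y : Type} (u : Ultrafilter Y) (v : Ultrafilter X) : Prop := ∃ f : X → Y, u = v.map f

def WeakP (κ : Cardinal.{0}) (u : Ultrafilter ℕ) : Prop :=
  (∀ n, u ≠ pure n) ∧ ∀ F : Set (Ultrafilter ℕ), #F ≤ κ →
    (∀ w ∈ F, (∀ n, w ≠ pure n) ∧ w ≠ u) → u ∉ closure F

noncomputable def tprod {K : Type} :
    (n : ℕ) → (Fin (n + 1) → Ultrafilter K) → Ultrafilter (Fin (n + 1) → K)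
  | 0, v => (v 0).map fun x _ => x
  | n + 1, v => (v 0).bind fun x => (tprod n fun i => v i.succ).map fun y => Fin.cons x y

lemma two {K Z : Type} {u : Ultrafilter ℕ} (hu : WeakP #K u) (v : Ultrafilter K)
    (w : Ultrafilter Z) (f : K → Z → ℕ) (h : u = v.bind fun x => w.map (f x)) :
    LeRK u v ∨ LeRK u w := by
  refine or_iff_not_imp_right.2 fun hw => ?_
  have h1 := hu.2 ((fun x => w.map (f x)) '' {x | ∀ n, w.map (f x) ≠ pure n})
    (mk_image_le.trans (mk_set_le _)) (by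
      rintro _ ⟨x, hx, rfl⟩
      exact ⟨hx, fun he => hw ⟨f x, he.symm⟩⟩)
  rw [ultrafilterBasis_is_basis.mem_closure_iff] at h1
  push Not at h1
  obtain ⟨_, ⟨A, rfl⟩, hA, h2⟩ := h1
  have h3 : ∀ x, ∃ n, A ∈ w.map (f x) → w.map (f x) = pure n := fun x => by
    by_contra hc
    push Not at hc
    exact Set.eq_empty_iff_forall_notMem.1 h2 _ ⟨(hc 0).1, x, fun n => (hc n).2, rfl⟩
  choose σ hσ using h3
  refine ⟨σ, (Ultrafilter.eq_of_le (f := v.map σ) fun B hB => ?_).symm⟩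
  have h4 : A ∩ B ∈ v.bind fun x => w.map (f x) := h ▸ inter_mem hA hB
  refine mem_map.2 (mem_of_superset (Filter.mem_bind'.1 h4) fun x hx => ?_)
  have h5 : A ∩ B ∈ w.map (f x) := hx
  rw [hσ x (mem_of_superset h5 Set.inter_subset_left)] at h5
  exact h5.2

theorem result (K : Type) (u : Ultrafilter ℕ) (hu : WeakP #K u) (n : ℕ)
    (v : Fin (n + 1) → Ultrafilter K) (h : LeRK u (tprod n v)) : ∃ k, LeRK u (v k) := by
  induction n with
  | zero =>
    obtain ⟨f, rfl⟩ := h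
    exact ⟨0, fun x => f fun _ => x, rfl⟩
  | succ n ih =>
    obtain ⟨f, hf⟩ := h
    rcases two hu (v 0) (tprod n fun i => v i.succ) (fun x y => f (Fin.cons x y))
      (hf.trans (Ultrafilter.ext fun A => Filter.mem_bind'.trans Filter.mem_bind'.symm)) with h | h
    · exact ⟨0, h⟩
    · obtain ⟨k, hk⟩ := ih _ h
      exact ⟨k.succ, hk⟩

end Pool.Agent.Results.MP_96acc4_lc.Holds
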